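import Mathlib
import Pool.Agent.Y748.SR.Stm2

/-!
`S_DET01`: the correlation functions of the sine process lie between `0` and `1`.
-/

open Finset MeasureTheory

set_option autoImplicit false

namespace Pool.Agent.Y153.SR

open Pool.Agent.Y748.SR

theorem sn_int (u : ℝ) : sn u = ∫ t in (0:ℝ)..1, Real.cos (t * (Real.pi * u)) := by
  unfold sn
  by_cases h : Real.pi * u = 0
  · rw [h]; simp
  · rw [Real.sinc_of_ne_zero h, intervalIntegral.integral_comp_mul_right (f := Real.cos) h]
    simp [integral_cos]
    field_simp

theorem sn_symm (x y : ℝ) : sn (x - y) = sn (y - x) := by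
  unfold sn
  rw [← Real.sinc_neg]
  congr 1
  ring

theorem psd {k : ℕ} (p : Fin k → ℝ) :
    (Matrix.of fun i j : Fin k => sn (p i - p j)).PosSemidef := by
  apply Matrix.PosSemidef.of_dotProduct_mulVec_nonneg
  · ext i j
    simp [Matrix.conjTranspose_apply, Matrix.of_apply]
    exact sn_symm _ _
  · intro x
    have e : star x ⬝ᵥ ((Matrix.of fun i j : Fin k => sn (p i - p j)).mulVec x) =
        ∫ t in (0:ℝ)..1, ((∑ i, x i * Real.cos (t * Real.pi * p i)) ^ 2 +
          (∑ i, x i * Real.sin (t * Real.pi * p i)) ^ 2) := by
      have e1 : ∀ t : ℝ, ((∑ i, x i * Real.cos (t * Real.pi * p i)) ^ 2 +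
          (∑ i, x i * Real.sin (t * Real.pi * p i)) ^ 2) =
          ∑ i : Fin k, ∑ j : Fin k, x i * x j * Real.cos (t * (Real.pi * (p i - p j))) := by
        intro t
        rw [sq, sq, Finset.sum_mul_sum, Finset.sum_mul_sum, ← Finset.sum_add_distrib]
        refine Finset.sum_congr rfl fun i _ => ?_
        rw [← Finset.sum_add_distrib]
        refine Finset.sum_congr rfl fun j _ => ?_
        have : t * (Real.pi * (p i - p j)) = t * Real.pi * p i - t * Real.pi * p j := by ring
        rw [this, Real.cos_sub]
        ring
      simp_rw [e1]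
      rw [intervalIntegral.integral_finsetSum]
      · simp only [dotProduct, Matrix.mulVec, Matrix.of_apply, Pi.star_apply, star_trivial,
          Finset.mul_sum]
        refine Finset.sum_congr rfl fun i _ => ?_
        rw [intervalIntegral.integral_finsetSum]
        · refine Finset.sum_congr rfl fun j _ => ?_
          rw [intervalIntegral.integral_const_mul, sn_int]
          ring
        · intro j _
          exact Continuous.intervalIntegrable (by fun_prop) _ _
      · intro i _
        exact Continuous.intervalIntegrable (by fun_prop) _ _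
    rw [e]
    exact intervalIntegral.integral_nonneg (by norm_num) fun t _ => by positivity

/-- Hadamard's inequality for a positive semidefinite matrix with unit diagonal -/
theorem det_le_one {k : ℕ} (A : Matrix (Fin k) (Fin k) ℝ) (hA : A.PosSemidef)
    (hd : ∀ i, A i i = 1) : A.det ≤ 1 := by
  rcases Nat.eq_zero_or_pos k with hk | hk
  · subst hk
    simp
  have htr : ∑ i, hA.isHermitian.eigenvalues i = k := by
    have h := hA.isHermitian.trace_eq_sum_eigenvalues
    simp only [Matrix.trace, Matrix.diag_apply, hd, Finset.sum_const, Finset.card_univ,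
      Fintype.card_fin, nsmul_eq_mul, mul_one] at h
    simpa using h.symm
  have hdet : A.det = ∏ i, hA.isHermitian.eigenvalues i := by
    simpa using hA.isHermitian.det_eq_prod_eigenvalues
  have hnn := hA.eigenvalues_nonneg
  have hk0 : (0:ℝ) < k := by exact_mod_cast hk
  have h := Real.geom_mean_le_arith_mean_weighted Finset.univ (fun _ : Fin k => (1 / k : ℝ))
    hA.isHermitian.eigenvalues (fun _ _ => by positivity)
    (by simp; field_simp) (fun i _ => hnn i)
  rw [← Finset.mul_sum, htr, one_div, inv_mul_cancel₀ hk0.ne', Real.finsetProd_rpow _ _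
    (fun i _ => hnn i), ← hdet] at h
  by_contra hc
  push Not at hc
  have := Real.one_lt_rpow hc (by positivity : (0:ℝ) < (k:ℝ)⁻¹)
  linarith

theorem t_DET01 : S_DET01 := by
  intro k x
  unfold sdet
  exact ⟨(psd x).det_nonneg, det_le_one _ (psd x) (fun i => by simp [sn])⟩

end Pool.Agent.Y153.SR
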